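import Pool.Agent.Helper99.EX.TruncB
import Pool.Agent.Helper99.EX.TruncC
import Pool.Agent.Helper99.EX.TruncD
import Pool.Agent.Helper22.AE.G6

/-!
# AM, block C1 `dil_low`: the error is the main sum up to `ε √R₀` and the blocks at the radii `R ± m R₀^(-τ)`
-/

open MeasureTheory Real Set Filter Topology

set_option autoImplicit false

namespace Pool.Agent.Helper90.AM

open Pool.Agent.Helper22.AE (ee rho nk tk box cz IsSupp IsBump ft fhat dom area dom_compact area_scale exists_bump ee_norm)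
open Pool.Agent.Helper22.AC (cntc smcc le_smcc smcc_le)
open Pool.Agent.Helper92.GC (dt sqa)
open Pool.Agent.Helper93.EX
open Pool.Agent.Helper99.EX

private lemma mul_supp90 {G : ℝ → ℝ} (hG : IsSupp G) {r : ℝ} (hr : 0 < r) : IsSupp (fun θ => r * G θ) := by
  have := Pool.Agent.Helper22.LP.rot_isSupp hG hr 0
  simpa using this

private lemma rho_mul90 (H : ℝ → ℝ) (R θ : ℝ) : rho (fun θ => R * H θ) θ = R * rho H θ := by
  have h1 : deriv (fun θ => R * H θ) = fun θ => R * deriv H θ := by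
    funext x
    rw [deriv_const_mul_field]
  unfold rho
  rw [h1, deriv_const_mul_field]
  ring

theorem dil_low {H : ℝ → ℝ} (hH : IsSupp H) {τ e2 : ℝ} (h0 : 1 / 2 < τ) (h1 : τ < 1) (he2 : 0 < e2) :
    ∃ m : ℝ, 0 < m ∧ ∀ (n0 : ℕ) (ε : ℝ), 0 < ε → ∃ R₁ : ℝ, 1 ≤ R₁ ∧ ∀ R₀ : ℝ, R₁ ≤ R₀ → m * R₀ ^ (-τ) ≤ R₀ / 2 ∧
      ∀ n1 : ℕ, n0 ≤ n1 → R₀ ^ (τ + e2) ≤ 2 ^ n1 →
      ∀ B : ℕ → ℝ → ℝ, (∀ n, n0 ≤ n → n < n1 → ∀ r ∈ Icc (R₀ / 2) (4 * R₀), 0 ≤ B n r ∧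
        ∀ c' : ℝ × ℝ, ‖∑ k ∈ sqa (2 ^ n), ft (fun θ => r * H θ) k * ee (dt k c')‖ ≤ B n r) →
      ∀ R ∈ Icc R₀ (2 * R₀), ∀ c : ℝ × ℝ,
        |cntc H c R - area H * R ^ 2 - sqrt R * Mx H (2 ^ n0) R c| ≤ ε * sqrt R₀ +
          ∑ n ∈ Finset.Ico n0 n1, (B n (R + m * R₀ ^ (-τ)) + B n (R - m * R₀ ^ (-τ))) := by
  obtain ⟨φ, hφ⟩ := exists_bump
  obtain ⟨m₀, hm₀, hmH⟩ : ∃ m₀ : ℝ, 0 < m₀ ∧ ∀ θ, m₀ ≤ H θ := by
    obtain ⟨x, _, hx⟩ := (isCompact_Icc (a := (0 : ℝ)) (b := 2 * π)).exists_isMinOn ⟨0, by constructor <;> positivity⟩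
      hH.smooth.continuous.continuousOn
    refine ⟨H x, hH.pos x, fun θ => ?_⟩
    obtain ⟨y, hy, hyt⟩ := hH.per.exists_mem_Ico₀ Real.two_pi_pos θ
    rw [hyt]
    exact hx ⟨hy.1, hy.2.le⟩
  obtain ⟨P, hP⟩ : ∃ P : ℝ, P = ∫ t in (0 : ℝ)..(2 * π), rho H t := ⟨_, rfl⟩
  have hP0 : 0 ≤ P := by
    rw [hP]
    exact intervalIntegral.integral_nonneg (by positivity) fun t _ => (hH.rho_pos t).le
  obtain ⟨T0, hT0, hpoi⟩ := smcc_low99 hφ (τ := τ) (e2 := e2) (I := 2 * P) (by linarith) h1 he2 (by positivity)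
  obtain ⟨a, ha⟩ : ∃ a : ℝ, a = area H := ⟨_, rfl⟩
  have ha0 : 0 ≤ a := by
    rw [ha]
    exact ENNReal.toReal_nonneg
  obtain ⟨m, hm⟩ : ∃ m : ℝ, m = 1 / m₀ := ⟨_, rfl⟩
  have hm0 : 0 < m := by
    rw [hm]
    positivity
  refine ⟨m, hm0, ?_⟩
  intro n0 ε hε
  obtain ⟨N, hN⟩ : ∃ N : ℕ, N = 2 ^ n0 := ⟨_, rfl⟩
  have hN1 : 1 ≤ N := by
    rw [hN]
    exact Nat.one_le_two_pow
  have hNr : (1 : ℝ) ≤ N := by exact_mod_cast hN1
  have hsN : 0 < sqrt N := Real.sqrt_pos.2 (by linarith)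
  obtain ⟨R₂, hR₂, hlow⟩ := low_main99 hH (η := ε / (4 * sqrt N)) (by positivity)
  obtain ⟨K, hK⟩ : ∃ K : ℝ, K = T0 + 5 * m * a + 9 * (N : ℝ) ^ 2 * (5 * m * a + 8 * P) := ⟨_, rfl⟩
  have hK0 : 0 ≤ K := by
    rw [hK]
    positivity
  obtain ⟨R₃, hR₃⟩ : ∃ R₃ : ℝ, R₃ = (2 * K / ε + 1) ^ (1 / (τ - 1 / 2)) := ⟨_, rfl⟩
  refine ⟨max (max 2 (2 * m)) (max R₂ (max R₃ ((2 * N) ^ 4))), le_max_of_le_left (le_max_of_le_left (by norm_num)), ?_⟩
  intro R₀ hR₀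
  have hRa : 2 ≤ R₀ := ((le_max_left _ _).trans (le_max_left _ _)).trans hR₀
  have hRb : 2 * m ≤ R₀ := ((le_max_right _ _).trans (le_max_left _ _)).trans hR₀
  have hRc : R₂ ≤ R₀ := ((le_max_left _ _).trans (le_max_right _ _)).trans hR₀
  have hRd : R₃ ≤ R₀ := (((le_max_left _ _).trans (le_max_right _ _)).trans (le_max_right _ _)).trans hR₀
  have hRe : (2 * (N : ℝ)) ^ 4 ≤ R₀ := (((le_max_right _ _).trans (le_max_right _ _)).trans (le_max_right _ _)).trans hR₀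
  have hR1 : 1 ≤ R₀ := by linarith
  have hR0 : 0 < R₀ := by linarith
  obtain ⟨δ, hδ⟩ : ∃ δ : ℝ, δ = R₀ ^ (-τ) := ⟨_, rfl⟩
  have hδ0 : 0 < δ := by
    rw [hδ]
    positivity
  have hδ1 : δ ≤ 1 := by
    rw [hδ]
    exact Real.rpow_le_one_of_one_le_of_nonpos hR1 (by linarith)
  have hmδ : m * δ ≤ R₀ / 2 := by
    have := mul_le_mul_of_nonneg_left hδ1 hm0.le
    linarith
  have hmδ0 : 0 < m * δ := by positivity
  rw [← hδ]
  refine ⟨hmδ, ?_⟩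
  intro n1 h01 hn1 B hB R hR c
  obtain ⟨x, hx⟩ : ∃ x : ℝ, x = sqrt R * Mx H (2 ^ n0) R c := ⟨_, rfl⟩
  rw [← hx, ← ha]
  have hRp : 0 < R := by linarith [hR.1]
  have hRH := mul_supp90 hH hRp
  obtain ⟨Y, hY⟩ : ∃ Y : ℝ, Y = δ * R₀ := ⟨_, rfl⟩
  have hYr : Y = R₀ ^ (1 - τ) := by
    rw [hY, hδ]
    nth_rewrite 2 [← Real.rpow_one R₀]
    rw [← Real.rpow_add hR0]
    congr 1
    ring
  have hY1 : 1 ≤ Y := by
    rw [hYr]
    exact Real.one_le_rpow hR1 (by linarith)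
  -- the small terms
  have hKY : K * Y ≤ ε / 2 * sqrt R₀ := by
    have e1 : sqrt R₀ = Y * R₀ ^ (τ - 1 / 2) := by
      rw [hYr, ← Real.rpow_add hR0, Real.sqrt_eq_rpow]
      congr 1
      ring
    have h2 : 2 * K / ε + 1 ≤ R₀ ^ (τ - 1 / 2) := by
      have h3 : R₃ ^ (τ - 1 / 2) ≤ R₀ ^ (τ - 1 / 2) := by
        refine Real.rpow_le_rpow ?_ hRd (by linarith)
        rw [hR₃]
        positivity
      refine le_trans (le_of_eq ?_) h3
      rw [hR₃, ← Real.rpow_mul (by positivity)]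
      have e3 : 1 / (τ - 1 / 2) * (τ - 1 / 2) = 1 := one_div_mul_cancel (by linarith)
      rw [e3, Real.rpow_one]
    have h4 : K ≤ ε / 2 * R₀ ^ (τ - 1 / 2) := by
      have h5 := mul_le_mul_of_nonneg_left h2 (show 0 ≤ ε / 2 by positivity)
      have h6 : ε / 2 * (2 * K / ε + 1) = K + ε / 2 := by field_simp
      linarith
    rw [e1]
    have := mul_le_mul_of_nonneg_right h4 (show 0 ≤ Y by linarith)
    linarith
  have hmain : ‖∑ k ∈ lo N, ft (fun θ => R * H θ) k * ee (-((k.1 : ℝ) * c.1 + (k.2 : ℝ) * c.2)) - (x : ℂ)‖ ≤ ε / 2 * sqrt R₀ := by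
    have h2 : 2 * (N : ℝ) ≤ R ^ (1 / 4 : ℝ) := by
      have h3 : (2 * (N : ℝ)) ^ 4 ≤ R := hRe.trans hR.1
      calc 2 * (N : ℝ) = ((2 * (N : ℝ)) ^ 4) ^ (1 / 4 : ℝ) := by
            rw [← Real.rpow_natCast, ← Real.rpow_mul (by positivity)]
            norm_num
        _ ≤ _ := Real.rpow_le_rpow (by positivity) h3 (by norm_num)
    have h3 := hlow R (hRc.trans hR.1) N hN1 h2 c
    rw [hx, ← hN]
    refine h3.trans ?_
    have h4 : sqrt R ≤ 2 * sqrt R₀ := by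
      rw [Real.sqrt_le_left (by positivity)]
      have := Real.sq_sqrt hR0.le
      nlinarith [hR.2]
    have e : ε / (4 * sqrt N) * (sqrt R * sqrt N) = ε / 4 * sqrt R := by
      field_simp
    rw [e]
    have := mul_le_mul_of_nonneg_left h4 (show 0 ≤ ε / 4 by positivity)
    linarith
  -- one side
  have hside : ∀ r : ℝ, r ∈ Icc (R₀ / 2) (4 * R₀) → |r - R| = m * δ →
      |smcc φ δ (fun θ => r * H θ) c - R ^ 2 * a - x| ≤ ε * sqrt R₀ + ∑ n ∈ Finset.Ico n0 n1, B n r := by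
    intro r hr hrR
    have hr0 : 0 < r := by linarith [hr.1]
    have hrG := mul_supp90 hH hr0
    have hIr : ∫ t in (0 : ℝ)..(2 * π), rho (fun θ => r * H θ) t = r * P := by
      simp only [rho_mul90]
      rw [intervalIntegral.integral_const_mul, hP]
    have hrP : r * P ≤ 4 * R₀ * P := mul_le_mul_of_nonneg_right hr.2 hP0
    have hvol : area (fun θ => r * H θ) = r ^ 2 * a := by rw [ha]; exact area_scale hH hr0
    have hvolR : area (fun θ => R * H θ) = R ^ 2 * a := by rw [ha]; exact area_scale hH hRp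
    have hcmp : (∀ θ, r * H θ ≤ R * H θ) ∨ (∀ θ, R * H θ ≤ r * H θ) := by
      rcases le_total r R with h | h
      · exact Or.inl fun θ => mul_le_mul_of_nonneg_right h (hH.pos θ).le
      · exact Or.inr fun θ => mul_le_mul_of_nonneg_right h (hH.pos θ).le
    have h2 := hpoi (fun θ => r * H θ) hrG R₀ hRa (by rw [hIr]; linarith) n0 n1 h01 hn1 (fun n => B n r)
      (fun n hn0' hn1' c' => (hB n hn0' hn1' r hr).2 c') c
    have h3 := low_cmp99 hrG hRH hcmp hφ hδ0 hN1 c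
    rw [← hδ, ← hN, hvol] at h2
    rw [hvol, hvolR, hIr] at h3
    have hD : |r ^ 2 * a - R ^ 2 * a| ≤ 5 * m * a * Y := by
      have e : r ^ 2 * a - R ^ 2 * a = (r - R) * ((r + R) * a) := by ring
      have h4 : 0 ≤ (r + R) * a := by positivity
      have h5 : r + R ≤ 5 * R₀ := by
        have := (abs_le.1 hrR.le).2
        linarith [hR.2]
      rw [e, abs_mul, hrR, abs_of_nonneg h4, hY]
      calc m * δ * ((r + R) * a) ≤ m * δ * (5 * R₀ * a) := by gcongr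
        _ = 5 * m * a * (δ * R₀) := by ring
    have h4 : |r ^ 2 * a - R ^ 2 * a| + 2 * δ * (r * P) ≤ (5 * m * a + 8 * P) * Y := by
      have h5 : 2 * δ * (r * P) ≤ 8 * P * Y := by
        rw [hY]
        have := mul_le_mul_of_nonneg_left hrP (show 0 ≤ 2 * δ by positivity)
        linarith
      linarith
    have h5 := mul_le_mul_of_nonneg_left h4 (show 0 ≤ 9 * (N : ℝ) ^ 2 by positivity)
    obtain ⟨S1, hS1⟩ : ∃ S1 : ℂ, S1 = ∑ k ∈ lo N, ft (fun θ => r * H θ) k * fhat φ (δ * k.1) (δ * k.2) * ee (-((k.1 : ℝ) * c.1 + (k.2 : ℝ) * c.2)) := ⟨_, rfl⟩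
    obtain ⟨S2, hS2⟩ : ∃ S2 : ℂ, S2 = ∑ k ∈ lo N, ft (fun θ => R * H θ) k * ee (-((k.1 : ℝ) * c.1 + (k.2 : ℝ) * c.2)) := ⟨_, rfl⟩
    rw [← hS1] at h2
    rw [← hS1, ← hS2] at h3
    rw [← hS2] at hmain
    obtain ⟨y, hy⟩ : ∃ y : ℝ, y = smcc φ δ (fun θ => r * H θ) c := ⟨_, rfl⟩
    rw [← hy] at h2 ⊢
    have h6 : ((y - R ^ 2 * a - x : ℝ) : ℂ) = (((y : ℝ) : ℂ) - ((r ^ 2 * a : ℝ) : ℂ) - S1) +
        ((r ^ 2 * a - R ^ 2 * a : ℝ) : ℂ) + (S1 - S2) + (S2 - (x : ℂ)) := by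
      push_cast
      ring
    have h7 : |y - R ^ 2 * a - x| = ‖((y - R ^ 2 * a - x : ℝ) : ℂ)‖ := by
      rw [Complex.norm_real, Real.norm_eq_abs]
    have h8 : ‖((r ^ 2 * a - R ^ 2 * a : ℝ) : ℂ)‖ ≤ 5 * m * a * Y := by
      rw [Complex.norm_real, Real.norm_eq_abs]
      exact hD
    rw [h7, h6]
    have h9 := norm_add₄_le (a := (((y : ℝ) : ℂ) - ((r ^ 2 * a : ℝ) : ℂ) - S1)) (b := ((r ^ 2 * a - R ^ 2 * a : ℝ) : ℂ))
      (c := S1 - S2) (d := S2 - (x : ℂ))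
    have h10 : T0 ≤ T0 * Y := le_mul_of_one_le_right hT0 hY1
    have h11 : K * Y = T0 * Y + 5 * m * a * Y + 9 * (N : ℝ) ^ 2 * ((5 * m * a + 8 * P) * Y) := by
      rw [hK]
      ring
    linarith only [h2, h3, h5, h8, h9, h10, h11, hKY, hmain]
  -- both sides
  have hcnt : cntc H c R =
      (Nat.card {k : ℤ × ℤ // ((k.1 : ℝ) - c.1, (k.2 : ℝ) - c.2) ∈ dom (fun θ => R * H θ)} : ℝ) := rfl
  have hstep : ∀ θ, δ ≤ m * δ * H θ := by
    intro θ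
    have h2 := mul_le_mul_of_nonneg_left (hmH θ) hmδ0.le
    have h3 : m * δ * m₀ = δ := by
      rw [hm]
      field_simp
    linarith
  have hup : R + m * δ ∈ Icc (R₀ / 2) (4 * R₀) := ⟨by linarith [hR.1], by linarith [hR.2]⟩
  have hlo : R - m * δ ∈ Icc (R₀ / 2) (4 * R₀) := ⟨by linarith [hR.1], by linarith [hR.2]⟩
  have hs1 := hside (R + m * δ) hup (by rw [add_sub_cancel_left, abs_of_pos hmδ0])
  have hs2 := hside (R - m * δ) hlo (by rw [sub_sub_cancel_left, abs_neg, abs_of_pos hmδ0])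
  have h2 : cntc H c R ≤ smcc φ δ (fun θ => (R + m * δ) * H θ) c := by
    rw [hcnt]
    exact le_smcc hRH (mul_supp90 hH (by linarith)) hφ hδ0 (fun θ => by
      have := hstep θ
      linarith) c
  have h3 : smcc φ δ (fun θ => (R - m * δ) * H θ) c ≤ cntc H c R := by
    rw [hcnt]
    exact smcc_le (mul_supp90 hH (by linarith [hlo.1])) hRH hφ hδ0 (fun θ => by
      have := hstep θ
      linarith) c
  have hb1 : 0 ≤ ∑ n ∈ Finset.Ico n0 n1, B n (R + m * δ) := Finset.sum_nonneg fun n hn => by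
    rw [Finset.mem_Ico] at hn
    exact (hB n hn.1 hn.2 _ hup).1
  have hb2 : 0 ≤ ∑ n ∈ Finset.Ico n0 n1, B n (R - m * δ) := Finset.sum_nonneg fun n hn => by
    rw [Finset.mem_Ico] at hn
    exact (hB n hn.1 hn.2 _ hlo).1
  rw [Finset.sum_add_distrib, abs_le]
  have h4 := (abs_le.1 hs1).2
  have h5 := (abs_le.1 hs2).1
  constructor
  · linarith only [h3, h5, hb1, hb2]
  · linarith only [h2, h4, hb1, hb2]

end Pool.Agent.Helper90.AM
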